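import Pool.Agent.Helper91.US.NNBasic
import Pool.Agent.Helper91.US.LegA
import Pool.Agent.Helper98.US.LegC
import Pool.Agent.Helper91.US.Triangle

set_option autoImplicit false

/-!
# C3 LOCTAYLOR
-/

namespace Pool.Agent.US

open Finset Filter Topology
open scoped ContDiff

/-! ### one variable: `log ((a + t b)^4 + ε)` -/

section OneVar

variable (a b ε : ℝ)

private theorem lt_q_pos (hε : 0 < ε) (t : ℝ) : 0 < (a + t * b) ^ 4 + ε := by positivity

private theorem lt_hq (t : ℝ) :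
    HasDerivAt (fun t : ℝ => (a + t * b) ^ 4 + ε) (4 * (a + t * b) ^ 3 * b) t := by
  have h1 : HasDerivAt (fun t : ℝ => a + t * b) b t := by
    simpa using ((hasDerivAt_id t).mul_const b).const_add a
  have h2 := (h1.pow 4).add_const ε
  simpa using h2

private theorem lt_hp (n : ℕ) (t : ℝ) :
    HasDerivAt (fun t : ℝ => (a + t * b) ^ n) (n * (a + t * b) ^ (n - 1) * b) t := by
  have h1 : HasDerivAt (fun t : ℝ => a + t * b) b t := by
    simpa using ((hasDerivAt_id t).mul_const b).const_add a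
  exact h1.pow n

private theorem lt_d1 (hε : 0 < ε) (t : ℝ) :
    HasDerivAt (fun t : ℝ => Real.log ((a + t * b) ^ 4 + ε))
      (4 * (a + t * b) ^ 3 / ((a + t * b) ^ 4 + ε) * b) t := by
  have h := (lt_hq a b ε t).log (lt_q_pos a b ε hε t).ne'
  convert h using 1
  ring

private theorem lt_d2 (hε : 0 < ε) (t : ℝ) :
    HasDerivAt (fun t : ℝ => 4 * (a + t * b) ^ 3 / ((a + t * b) ^ 4 + ε) * b)
      ((12 * (a + t * b) ^ 2 / ((a + t * b) ^ 4 + ε)
        - 16 * (a + t * b) ^ 6 / ((a + t * b) ^ 4 + ε) ^ 2) * b ^ 2) t := by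
  have hq := (lt_q_pos a b ε hε t).ne'
  have h := ((((lt_hp a b 3 t).const_mul 4).div (lt_hq a b ε t) hq)).mul_const b
  refine HasDerivAt.congr_deriv h ?_
  norm_num
  field_simp
  ring

private theorem lt_d3 (hε : 0 < ε) (t : ℝ) :
    HasDerivAt (fun t : ℝ => (12 * (a + t * b) ^ 2 / ((a + t * b) ^ 4 + ε)
        - 16 * (a + t * b) ^ 6 / ((a + t * b) ^ 4 + ε) ^ 2) * b ^ 2)
      ((24 * (a + t * b) / ((a + t * b) ^ 4 + ε)
        - 144 * (a + t * b) ^ 5 / ((a + t * b) ^ 4 + ε) ^ 2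
        + 128 * (a + t * b) ^ 9 / ((a + t * b) ^ 4 + ε) ^ 3) * b ^ 3) t := by
  have hq := (lt_q_pos a b ε hε t).ne'
  have h1 := ((lt_hp a b 2 t).const_mul 12).div (lt_hq a b ε t) hq
  have h2 := ((lt_hp a b 6 t).const_mul 16).div ((lt_hq a b ε t).pow 2) (pow_ne_zero 2 hq)
  have h := (h1.sub h2).mul_const (b ^ 2)
  refine HasDerivAt.congr_deriv h ?_
  norm_num
  field_simp
  ring

private theorem lt_iter (hε : 0 < ε) :
    (iteratedDeriv 1 (fun t : ℝ => Real.log ((a + t * b) ^ 4 + ε)) =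
      fun t => 4 * (a + t * b) ^ 3 / ((a + t * b) ^ 4 + ε) * b) ∧
    (iteratedDeriv 2 (fun t : ℝ => Real.log ((a + t * b) ^ 4 + ε)) =
      fun t => (12 * (a + t * b) ^ 2 / ((a + t * b) ^ 4 + ε)
        - 16 * (a + t * b) ^ 6 / ((a + t * b) ^ 4 + ε) ^ 2) * b ^ 2) ∧
    (iteratedDeriv 3 (fun t : ℝ => Real.log ((a + t * b) ^ 4 + ε)) =
      fun t => (24 * (a + t * b) / ((a + t * b) ^ 4 + ε)
        - 144 * (a + t * b) ^ 5 / ((a + t * b) ^ 4 + ε) ^ 2
        + 128 * (a + t * b) ^ 9 / ((a + t * b) ^ 4 + ε) ^ 3) * b ^ 3) := by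
  have e1 : iteratedDeriv 1 (fun t : ℝ => Real.log ((a + t * b) ^ 4 + ε)) =
      fun t => 4 * (a + t * b) ^ 3 / ((a + t * b) ^ 4 + ε) * b := by
    rw [iteratedDeriv_one]
    exact funext fun t => (lt_d1 a b ε hε t).deriv
  have e2 : iteratedDeriv 2 (fun t : ℝ => Real.log ((a + t * b) ^ 4 + ε)) =
      fun t => (12 * (a + t * b) ^ 2 / ((a + t * b) ^ 4 + ε)
        - 16 * (a + t * b) ^ 6 / ((a + t * b) ^ 4 + ε) ^ 2) * b ^ 2 := by
    rw [show (2 : ℕ) = 1 + 1 from rfl, iteratedDeriv_succ, e1]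
    exact funext fun t => (lt_d2 a b ε hε t).deriv
  have e3 : iteratedDeriv 3 (fun t : ℝ => Real.log ((a + t * b) ^ 4 + ε)) =
      fun t => (24 * (a + t * b) / ((a + t * b) ^ 4 + ε)
        - 144 * (a + t * b) ^ 5 / ((a + t * b) ^ 4 + ε) ^ 2
        + 128 * (a + t * b) ^ 9 / ((a + t * b) ^ 4 + ε) ^ 3) * b ^ 3 := by
    rw [show (3 : ℕ) = 2 + 1 from rfl, iteratedDeriv_succ, e2]
    exact funext fun t => (lt_d3 a b ε hε t).deriv
  exact ⟨e1, e2, e3⟩

/-- bounds for the derivatives, `w^4 = (a + t b)^4 + ε` -/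
private theorem lt_bounds (hε : 0 < ε) (t w : ℝ) (hw : 0 < w) (hw4 : w ^ 4 = (a + t * b) ^ 4 + ε) :
    |iteratedDeriv 1 (fun t : ℝ => Real.log ((a + t * b) ^ 4 + ε)) t| ≤ 7 * |b| / w ∧
    |iteratedDeriv 2 (fun t : ℝ => Real.log ((a + t * b) ^ 4 + ε)) t| ≤ (7 * |b| / w) ^ 2 ∧
    |iteratedDeriv 3 (fun t : ℝ => Real.log ((a + t * b) ^ 4 + ε)) t| ≤ (7 * |b| / w) ^ 3 := by
  obtain ⟨e1, e2, e3⟩ := lt_iter a b ε hε
  rw [e1, e2, e3]
  simp only
  rw [← hw4]
  set s := a + t * b with hs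
  have hsw : |s| ≤ w := by
    have h1 : |s| ^ 4 ≤ w ^ 4 := by
      rw [hw4, ← abs_pow, abs_of_nonneg (by positivity : (0 : ℝ) ≤ s ^ 4)]
      linarith
    exact le_of_pow_le_pow_left₀ (by norm_num) hw.le h1
  have h0 : 0 ≤ |s| := abs_nonneg s
  have hb : 0 ≤ |b| := abs_nonneg b
  -- ratio
  set r := |s| / w with hr
  have hr0 : 0 ≤ r := by positivity
  have hr1 : r ≤ 1 := by rw [hr, div_le_one hw]; exact hsw
  have hsr : |s| = r * w := by rw [hr]; field_simp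
  have hpow : ∀ n : ℕ, r ^ n ≤ 1 := fun n => pow_le_one₀ hr0 hr1
  refine ⟨?_, ?_, ?_⟩
  · rw [abs_mul, abs_div, abs_mul, abs_pow, abs_of_pos (by positivity : (0 : ℝ) < w ^ 4),
      abs_of_pos (by norm_num : (0 : ℝ) < 4), hsr]
    have : 4 * (r * w) ^ 3 / w ^ 4 * |b| = 4 * r ^ 3 * (|b| / w) := by field_simp
    rw [this]
    have h3 : 0 ≤ |b| / w := by positivity
    calc 4 * r ^ 3 * (|b| / w) ≤ 7 * (|b| / w) := by
          refine mul_le_mul_of_nonneg_right ?_ h3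
          linarith [hpow 3]
      _ = _ := by ring
  · rw [abs_mul, abs_pow b]
    have h4 : |12 * s ^ 2 / w ^ 4 - 16 * s ^ 6 / (w ^ 4) ^ 2| ≤ 28 / w ^ 2 := by
      calc |12 * s ^ 2 / w ^ 4 - 16 * s ^ 6 / (w ^ 4) ^ 2|
          ≤ |12 * s ^ 2 / w ^ 4| + |16 * s ^ 6 / (w ^ 4) ^ 2| := abs_sub _ _
        _ = 12 * |s| ^ 2 / w ^ 4 + 16 * |s| ^ 6 / (w ^ 4) ^ 2 := by
            rw [abs_div, abs_div, abs_mul, abs_mul, abs_pow s, abs_pow s,
              abs_of_pos (by positivity : (0 : ℝ) < w ^ 4),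
              abs_of_pos (by positivity : (0 : ℝ) < (w ^ 4) ^ 2),
              abs_of_pos (by norm_num : (0 : ℝ) < 12), abs_of_pos (by norm_num : (0 : ℝ) < 16)]
        _ = (12 * r ^ 2 + 16 * r ^ 6) / w ^ 2 := by rw [hsr]; field_simp
        _ ≤ 28 / w ^ 2 := by
            refine div_le_div_of_nonneg_right ?_ (by positivity)
            linarith [hpow 2, hpow 6]
    calc |12 * s ^ 2 / w ^ 4 - 16 * s ^ 6 / (w ^ 4) ^ 2| * |b| ^ 2 ≤ 28 / w ^ 2 * |b| ^ 2 :=
          mul_le_mul_of_nonneg_right h4 (by positivity)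
      _ ≤ 49 / w ^ 2 * |b| ^ 2 := by gcongr; norm_num
      _ = (7 * |b| / w) ^ 2 := by field_simp; ring
  · rw [abs_mul, abs_pow b]
    have h4 : |24 * s / w ^ 4 - 144 * s ^ 5 / (w ^ 4) ^ 2 + 128 * s ^ 9 / (w ^ 4) ^ 3|
        ≤ 296 / w ^ 3 := by
      calc |24 * s / w ^ 4 - 144 * s ^ 5 / (w ^ 4) ^ 2 + 128 * s ^ 9 / (w ^ 4) ^ 3|
          ≤ |24 * s / w ^ 4 - 144 * s ^ 5 / (w ^ 4) ^ 2| + |128 * s ^ 9 / (w ^ 4) ^ 3| :=
            abs_add_le _ _
        _ ≤ |24 * s / w ^ 4| + |144 * s ^ 5 / (w ^ 4) ^ 2| + |128 * s ^ 9 / (w ^ 4) ^ 3| := by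
            gcongr; exact abs_sub _ _
        _ = 24 * |s| / w ^ 4 + 144 * |s| ^ 5 / (w ^ 4) ^ 2 + 128 * |s| ^ 9 / (w ^ 4) ^ 3 := by
            rw [abs_div, abs_div, abs_div, abs_mul, abs_mul, abs_mul, abs_pow s, abs_pow s,
              abs_of_pos (by positivity : (0 : ℝ) < w ^ 4),
              abs_of_pos (by positivity : (0 : ℝ) < (w ^ 4) ^ 2),
              abs_of_pos (by positivity : (0 : ℝ) < (w ^ 4) ^ 3),
              abs_of_pos (by norm_num : (0 : ℝ) < 24), abs_of_pos (by norm_num : (0 : ℝ) < 144),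
              abs_of_pos (by norm_num : (0 : ℝ) < 128)]
        _ = (24 * r + 144 * r ^ 5 + 128 * r ^ 9) / w ^ 3 := by rw [hsr]; field_simp
        _ ≤ 296 / w ^ 3 := by
            refine div_le_div_of_nonneg_right ?_ (by positivity)
            linarith [hpow 5, hpow 9]
    calc |24 * s / w ^ 4 - 144 * s ^ 5 / (w ^ 4) ^ 2 + 128 * s ^ 9 / (w ^ 4) ^ 3| * |b| ^ 3
        ≤ 296 / w ^ 3 * |b| ^ 3 := mul_le_mul_of_nonneg_right h4 (by positivity)
      _ ≤ 343 / w ^ 3 * |b| ^ 3 := by gcongr; norm_num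
      _ = (7 * |b| / w) ^ 3 := by field_simp; ring

end OneVar

/-! ### Taylor expansion on a segment -/

private theorem lt_taylor {φ : ℝ → ℝ} (hφ : ContDiff ℝ 3 φ) {R : ℝ}
    (hR : ∀ t ∈ Set.Icc (0 : ℝ) 1, |iteratedDeriv 3 φ t| ≤ R) :
    |φ 1 - φ 0 - iteratedDeriv 1 φ 0 - 1 / 2 * iteratedDeriv 2 φ 0| ≤ R := by
  obtain ⟨t, ht, h⟩ := taylor_mean_remainder_lagrange_iteratedDeriv (f := φ) (x := 1) (x₀ := 0)
    (n := 2) zero_ne_one (by exact_mod_cast hφ.contDiffOn)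
  rw [Set.uIcc_of_le zero_le_one] at h
  rw [Set.uIoo_of_le zero_le_one] at ht
  have hu : UniqueDiffOn ℝ (Set.Icc (0 : ℝ) 1) := uniqueDiffOn_Icc one_pos
  have h0 : (0 : ℝ) ∈ Set.Icc (0 : ℝ) 1 := by simp
  have e1 : iteratedDerivWithin 1 φ (Set.Icc (0 : ℝ) 1) 0 = iteratedDeriv 1 φ 0 :=
    iteratedDerivWithin_eq_iteratedDeriv hu (hφ.contDiffAt.of_le (by norm_num)) h0
  have e2 : iteratedDerivWithin 2 φ (Set.Icc (0 : ℝ) 1) 0 = iteratedDeriv 2 φ 0 :=
    iteratedDerivWithin_eq_iteratedDeriv hu (hφ.contDiffAt.of_le (by norm_num)) h0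
  have e3 : taylorWithinEval φ 2 (Set.Icc (0 : ℝ) 1) 0 1
      = φ 0 + iteratedDeriv 1 φ 0 + 1 / 2 * iteratedDeriv 2 φ 0 := by
    rw [taylorWithinEval_succ, taylorWithinEval_succ, taylor_within_zero_eval]
    simp only [Nat.factorial, e1, e2, zero_add, Nat.reduceAdd, smul_eq_mul]
    norm_num
  rw [e3] at h
  have h2 : φ 1 - φ 0 - iteratedDeriv 1 φ 0 - 1 / 2 * iteratedDeriv 2 φ 0
      = iteratedDeriv 3 φ t / 6 := by
    have : (1 : ℝ) - 0 = 1 := by norm_num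
    rw [this] at h
    simp only [Nat.reduceAdd, one_pow, mul_one, Nat.factorial] at h
    push_cast at h
    linarith
  rw [h2, abs_div]
  have h3 := hR t ⟨ht.1.le, ht.2.le⟩
  have h4 : 0 ≤ |iteratedDeriv 3 φ t| := abs_nonneg _
  rw [abs_of_pos (by norm_num : (0 : ℝ) < 6), div_le_iff₀ (by norm_num)]
  linarith

/-! ### norms -/

private theorem lt_nrm_const {β : ℝ} (hβ : 0 ≤ β) (n : ℕ) {δ : ℝ} (hδ : 0 ≤ δ) :
    nrm β (fun i => if i < n then δ else 0) ≤ n * δ := by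
  have hz : ∀ i, n ≤ i → (fun i => if i < n then δ else 0 : ℕ → ℝ) i = 0 := fun i hi => by
    simp [not_lt.2 hi]
  have h1 := nrm_pow_four hβ (fun i => if i < n then δ else 0) ⟨n, hz⟩
  have h2 : NN β (fun i => (if i < n then δ else 0) ^ 4) ≤ ∑ i ∈ range n, (if i < n then δ else 0) ^ 4 :=
    NN_le_sum hβ (fun i => by positivity) (fun i hi => by simp [not_lt.2 hi])
  have h3 : ∑ i ∈ range n, (if i < n then δ else 0) ^ 4 = n * δ ^ 4 := by
    rw [Finset.sum_congr rfl (fun i hi => by rw [if_pos (mem_range.1 hi)]), sum_const, card_range,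
      nsmul_eq_mul]
  have h4 : (n : ℝ) ≤ (n : ℝ) ^ 4 := by
    have : n ≤ n ^ 4 := Nat.le_self_pow (by norm_num) n
    exact_mod_cast this
  refine le_of_pow_le_pow_left₀ (n := 4) (by norm_num) (by positivity) ?_
  rw [h1, mul_pow]
  refine (h2.trans (le_of_eq h3)).trans ?_
  exact mul_le_mul_of_nonneg_right h4 (by positivity)

private theorem lt_nrm_abs {β : ℝ} (hβ : 0 ≤ β) (x : ℕ → ℝ) (hx : ∃ n, ∀ i, n ≤ i → x i = 0) :
    nrm β (fun i => |x i|) ≤ nrm β x :=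
  nrm_mono hβ (fun i => by simp) hx

private theorem lt_nrm_w {β C : ℝ} (hβ : 0 ≤ β) (hβC : β * C ≤ 1 / 3) (hG : ∀ n, Good n (DF n) C)
    {n : ℕ} {x h w : ℕ → ℝ} {δ : ℝ} (hδ : 0 ≤ δ) (hx : ∀ i, n ≤ i → x i = 0)
    (hh : ∀ i, n ≤ i → h i = 0) (hw : ∀ i, n ≤ i → w i = 0)
    (hle : ∀ i < n, |w i| ≤ |x i| + |h i| + δ) :
    nrm β w ≤ nrm β x + nrm β h + n * δ := by
  have hx' : ∃ n, ∀ i, n ≤ i → (fun i => |x i|) i = 0 := ⟨n, fun i hi => by simp [hx i hi]⟩
  have hh' : ∃ n, ∀ i, n ≤ i → (fun i => |h i|) i = 0 := ⟨n, fun i hi => by simp [hh i hi]⟩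
  have hxh' : ∃ n, ∀ i, n ≤ i → (fun i => |x i| + |h i|) i = 0 :=
    ⟨n, fun i hi => by simp [hh i hi, hx i hi]⟩
  have hc' : ∃ k, ∀ i, k ≤ i → (fun i => if i < n then δ else 0 : ℕ → ℝ) i = 0 :=
    ⟨n, fun i hi => by simp [not_lt.2 hi]⟩
  have hs' : ∃ k, ∀ i, k ≤ i → (fun i => (|x i| + |h i|) + (if i < n then δ else 0) : ℕ → ℝ) i = 0 :=
    ⟨n, fun i hi => by simp [not_lt.2 hi, hx i hi, hh i hi]⟩
  calc nrm β w ≤ nrm β (fun i => (|x i| + |h i|) + (if i < n then δ else 0)) := by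
        refine nrm_mono hβ (fun i => ?_) hs'
        have h0 : 0 ≤ |x i| + |h i| + (if i < n then δ else 0) := by
          have := abs_nonneg (x i)
          have := abs_nonneg (h i)
          split_ifs <;> linarith
        rw [abs_of_nonneg h0]
        by_cases hi : i < n
        · rw [if_pos hi]; exact hle i hi
        · rw [hw i (not_lt.1 hi), abs_zero]; exact h0
    _ ≤ nrm β (fun i => |x i| + |h i|) + nrm β (fun i => if i < n then δ else 0) :=
        nrm_add_le hβ hβC hG _ _ hxh' hc'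
    _ ≤ (nrm β (fun i => |x i|) + nrm β (fun i => |h i|)) + n * δ :=
        add_le_add (nrm_add_le hβ hβC hG _ _ hx' hh') (lt_nrm_const hβ n hδ)
    _ ≤ _ := by
        have := lt_nrm_abs hβ x ⟨n, hx⟩
        have := lt_nrm_abs hβ h ⟨n, hh⟩
        linarith

/-- restriction to the first `n` coordinates -/
private noncomputable def ltπ (n : ℕ) : (ℕ →₀ ℝ) →ₗ[ℝ] (Fin n → ℝ) where
  toFun x i := x i
  map_add' x y := by ext i; simp
  map_smul' c x := by ext i; simp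

private theorem lt_w4 {s ε : ℝ} (hε : 0 < ε) : ((s ^ 4 + ε) ^ (1 / 4 : ℝ)) ^ 4 = s ^ 4 + ε := by
  have h0 : 0 ≤ s ^ 4 + ε := by positivity
  rw [← Real.rpow_natCast, ← Real.rpow_mul h0]
  norm_num

private theorem lt_w_le {s ε : ℝ} (hε : 0 < ε) :
    (s ^ 4 + ε) ^ (1 / 4 : ℝ) ≤ |s| + ε ^ (1 / 4 : ℝ) := by
  have h0 : 0 ≤ ε ^ (1 / 4 : ℝ) := by positivity
  refine le_of_pow_le_pow_left₀ (n := 4) (by norm_num) (by positivity) ?_
  rw [lt_w4 hε]
  have h1 : (ε ^ (1 / 4 : ℝ)) ^ 4 = ε := by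
    rw [← Real.rpow_natCast, ← Real.rpow_mul hε.le]
    norm_num
  have h2 : |s| ^ 4 = s ^ 4 := by
    rw [← abs_pow, abs_of_nonneg (by positivity : (0 : ℝ) ≤ s ^ 4)]
  have h3 := abs_nonneg s
  set u := |s|
  set v := ε ^ (1 / 4 : ℝ)
  have h4 : (u + v) ^ 4 = u ^ 4 + v ^ 4 + (4 * u ^ 3 * v + 6 * u ^ 2 * v ^ 2 + 4 * u * v ^ 3) := by
    ring
  rw [h4, h1, h2]
  have : 0 ≤ 4 * u ^ 3 * v + 6 * u ^ 2 * v ^ 2 + 4 * u * v ^ 3 := by positivity
  linarith

theorem local_taylor {β C : ℝ} (hβ : 0 ≤ β) (hβC : β * C ≤ 1 / 3) (hG : ∀ n, Good n (DF n) C) :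
    ∃ K : ℝ, 0 ≤ K ∧ ∀ (n : ℕ) (ε : ℝ), 0 < ε →
      ∃ (L : (ℕ →₀ ℝ) → ((ℕ →₀ ℝ) →ₗ[ℝ] ℝ))
        (B : (ℕ →₀ ℝ) → ((ℕ →₀ ℝ) →ₗ[ℝ] (ℕ →₀ ℝ) →ₗ[ℝ] ℝ)),
        (∀ x h k, B x h k = B x k h) ∧
        ∀ x h : ℕ →₀ ℝ, (∀ i, n ≤ i → x i = 0) → (∀ i, n ≤ i → h i = 0) →
          |NN β (fun i => if i < n then (x + h) i ^ 4 + ε else 0)
            - NN β (fun i => if i < n then x i ^ 4 + ε else 0) - L x h - 1 / 2 * B x h h| ≤
          K * (nrm β x + nrm β h + n * ε ^ (1 / 4 : ℝ)) * nrm β h ^ 3 := by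
  refine ⟨34300, by norm_num, fun n ε hε => ?_⟩
  obtain ⟨M, hM⟩ := leg_exists (hG n) hβ hβC
  set ψ : (Fin n → ℝ) → ℝ := fun x => ∑ i, M (fun j => Real.log (x j ^ 4 + ε)) i with hψ
  have hlog : ContDiff ℝ ∞ (fun (x : Fin n → ℝ) (j : Fin n) => Real.log (x j ^ 4 + ε)) := by
    refine contDiff_pi.2 fun j => ?_
    refine ContDiff.log ?_ (fun x => by positivity)
    exact ((contDiff_apply ℝ ℝ j).pow 4).add contDiff_const
  have hψs : ContDiff ℝ ∞ ψ := by
    refine ContDiff.sum fun i _ => ?_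
    exact (contDiff_pi.1 (hM.smooth.comp hlog)) i
  have hψ1 : Differentiable ℝ ψ := hψs.differentiable (by norm_num)
  have hψ' : ContDiff ℝ ∞ (fderiv ℝ ψ) := hψs.fderiv_right (by norm_num)
  have hψ'1 : Differentiable ℝ (fderiv ℝ ψ) := hψ'.differentiable (by norm_num)
  have hNN : ∀ x : ℕ →₀ ℝ, NN β (fun i => if i < n then x i ^ 4 + ε else 0) = ψ (ltπ n x) := by
    intro x
    rw [NN_leg hβ hβC (hG n) hM (z := fun i => if i < n then x i ^ 4 + ε else 0)
      (fun i hi => by rw [if_pos hi]; positivity) (fun i hi => by simp [not_lt.2 hi])]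
    simp only [hψ, ltπ, LinearMap.coe_mk, AddHom.coe_mk, Fin.is_lt, if_true]
  refine ⟨fun x => (fderiv ℝ ψ (ltπ n x)).toLinearMap ∘ₗ ltπ n,
    fun x => (((ContinuousLinearMap.coeLM ℝ).comp
      (fderiv ℝ (fderiv ℝ ψ) (ltπ n x)).toLinearMap)).compl₁₂ (ltπ n) (ltπ n), ?_, ?_⟩
  · intro x h k
    simp only [LinearMap.compl₁₂_apply, LinearMap.comp_apply, ContinuousLinearMap.coe_coe,
      ContinuousLinearMap.coeLM_apply]
    have hs : IsSymmSndFDerivAt ℝ ψ (ltπ n x) :=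
      (hψs.contDiffAt).isSymmSndFDerivAt (by simp; exact ENat.LEInfty.out)
    exact hs (ltπ n h) (ltπ n k)
  · intro x h hx hh
    rw [hNN, hNN]
    set X := ltπ n x with hX
    set H := ltπ n h with hH
    have hXH : ltπ n (x + h) = X + H := map_add _ _ _
    rw [hXH]
    set φ : ℝ → ℝ := fun t => ψ (X + t • H) with hφ
    have hline : ∀ t : ℝ, HasDerivAt (fun t : ℝ => X + t • H) H t := by
      intro t
      simpa using ((hasDerivAt_id t).smul_const H).const_add X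
    have hlineC : ContDiff ℝ ∞ (fun t : ℝ => X + t • H) :=
      contDiff_const.add (contDiff_id.smul contDiff_const)
    have hφC : ContDiff ℝ ∞ φ := hψs.comp hlineC
    have d1 : iteratedDeriv 1 φ = fun t => fderiv ℝ ψ (X + t • H) H := by
      rw [iteratedDeriv_one]
      funext t
      exact ((hψ1 _).hasFDerivAt.comp_hasDerivAt t (hline t)).deriv
    have d2 : iteratedDeriv 2 φ = fun t => fderiv ℝ (fderiv ℝ ψ) (X + t • H) H H := by
      rw [show (2 : ℕ) = 1 + 1 from rfl, iteratedDeriv_succ, d1]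
      funext t
      have h1 := (hψ'1 (X + t • H)).hasFDerivAt.comp_hasDerivAt t (hline t)
      have h2 := (ContinuousLinearMap.apply ℝ ℝ H).hasFDerivAt.comp_hasDerivAt t h1
      exact h2.deriv
    have hT := lt_taylor (φ := φ) (hφC.of_le ENat.LEInfty.out)
      (R := 34300 * (nrm β x + nrm β h + n * ε ^ (1 / 4 : ℝ)) * nrm β h ^ 3) ?_
    · rw [d1, d2] at hT
      simp only [hφ, zero_smul, add_zero, one_smul] at hT
      simp only [LinearMap.comp_apply, LinearMap.compl₁₂_apply, ContinuousLinearMap.coe_coe,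
        ContinuousLinearMap.coeLM_apply]
      exact hT
    · intro t ht
      set u : ℝ → Fin n → ℝ := fun t j => Real.log ((X j + t * H j) ^ 4 + ε) with hu
      have huC : ContDiff ℝ 3 u := by
        refine contDiff_pi.2 fun j => ?_
        refine ContDiff.log ?_ (fun x => by positivity)
        exact ((contDiff_const.add (contDiff_id.mul contDiff_const)).pow 4).add contDiff_const
      set w : ℕ → ℝ := fun i => if i < n then ((x i + t * h i) ^ 4 + ε) ^ (1 / 4 : ℝ) else 0 with hw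
      have hwpos : ∀ i < n, 0 < w i := fun i hi => by
        simp only [hw, if_pos hi]
        positivity
      have hw0 : ∀ i, n ≤ i → w i = 0 := fun i hi => by simp [hw, not_lt.2 hi]
      have hw4 : ∀ i : Fin n, w i ^ 4 = (X i + t * H i) ^ 4 + ε := fun i => by
        simp only [hw, Fin.is_lt, if_true]
        rw [lt_w4 hε]
        rfl
      have hb : ∀ i : Fin n, _ := fun i => lt_bounds (X i) (H i) ε hε t (w i) (hwpos i i.2) (hw4 i)
      have h3 := leg_third (hG n) hβ hβC hM u huC t (fun i => 7 * |H i| / w i)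
        (fun i => by have := hwpos i i.2; positivity) (fun i => (hb i).1) (fun i => (hb i).2.1)
        (fun i => (hb i).2.2)
      have hK := key_K hβ hβC (hG n) hM hwpos hw0 hh
      have hφu : (fun t => ∑ i, M (u t) i) = φ := by
        funext t
        simp only [hφ, hψ, hu, Pi.add_apply, Pi.smul_apply, smul_eq_mul]
      rw [hφu] at h3
      have hMu : M (u t) = M (fun i => Real.log (w i ^ 4)) := by
        congr 1
        funext i
        rw [hw4 i]
      have hwn : nrm β w ≤ nrm β x + nrm β h + n * ε ^ (1 / 4 : ℝ) := by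
        refine lt_nrm_w hβ hβC hG (by positivity) hx hh hw0 (fun i hi => ?_)
        rw [abs_of_pos (hwpos i hi)]
        simp only [hw, if_pos hi]
        refine (lt_w_le hε).trans ?_
        have h5 : |x i + t * h i| ≤ |x i| + |h i| := by
          refine (abs_add_le _ _).trans ?_
          rw [abs_mul]
          have h6 : |t| ≤ 1 := by rw [abs_of_nonneg ht.1]; exact ht.2
          have := mul_le_mul_of_nonneg_right h6 (abs_nonneg (h i))
          linarith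
        linarith
      calc |iteratedDeriv 3 φ t| ≤ 100 * ∑ i, M (u t) i * (7 * |H i| / w i) ^ 3 := h3
        _ = 34300 * ∑ i : Fin n, M (fun i => Real.log (w i ^ 4)) i * (|h i| / w i) ^ 3 := by
            rw [hMu, mul_sum, mul_sum]
            refine sum_congr rfl fun i _ => ?_
            have : H i = h i := rfl
            rw [this]
            ring
        _ ≤ 34300 * (nrm β w * nrm β h ^ 3) := by gcongr
        _ ≤ 34300 * ((nrm β x + nrm β h + n * ε ^ (1 / 4 : ℝ)) * nrm β h ^ 3) := by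
            have := nrm_nonneg β (⇑h)
            gcongr
        _ = _ := by ring

theorem NN_tendsto {β C : ℝ} (hβ : 0 ≤ β) (hβC : β * C ≤ 1 / 3) (hG : ∀ n, Good n (DF n) C)
    (x : ℕ → ℝ) (hx : ∃ n, ∀ i, n ≤ i → x i = 0) :
    Tendsto (fun n : ℕ => NN β (fun i => if i < n then x i ^ 4 + 1 / ((n : ℝ) + 1) ^ 8 else 0))
      atTop (𝓝 (NN β (fun i => x i ^ 4))) := by
  obtain ⟨n0, hn0⟩ := hx
  have hx' : ∃ n, ∀ i, n ≤ i → x i = 0 := ⟨n0, hn0⟩
  have hlim : Tendsto (fun n : ℕ => (nrm β x + (n : ℝ) / ((n : ℝ) + 1) ^ 2) ^ 4) atTop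
      (𝓝 (nrm β x ^ 4)) := by
    have h1 : Tendsto (fun n : ℕ => (n : ℝ) / ((n : ℝ) + 1) ^ 2) atTop (𝓝 0) := by
      refine squeeze_zero (fun n => by positivity) (fun n => ?_)
        (tendsto_one_div_add_atTop_nhds_zero_nat)
      rw [div_le_div_iff₀ (by positivity) (by positivity)]
      nlinarith [(Nat.cast_nonneg n : (0 : ℝ) ≤ n)]
    have h2 := ((tendsto_const_nhds (x := nrm β x)).add h1).pow 4
    rwa [add_zero] at h2
  rw [nrm_pow_four hβ x hx'] at hlim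
  refine tendsto_of_tendsto_of_tendsto_of_le_of_le' tendsto_const_nhds hlim ?_ ?_
  · filter_upwards [eventually_ge_atTop n0] with n hn
    refine NN_mono hβ (fun i => by positivity) (fun i => ?_) ⟨n, fun i hi => by simp [not_lt.2 hi]⟩
    by_cases hi : i < n
    · rw [if_pos hi]
      have : (0 : ℝ) ≤ 1 / ((n : ℝ) + 1) ^ 8 := by positivity
      linarith
    · rw [if_neg hi, hn0 i (by omega)]; norm_num
  · filter_upwards [eventually_ge_atTop n0] with n hn
    set ε : ℝ := 1 / ((n : ℝ) + 1) ^ 8 with hε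
    have hε0 : 0 < ε := by positivity
    set w : ℕ → ℝ := fun i => if i < n then (x i ^ 4 + ε) ^ (1 / 4 : ℝ) else 0 with hw
    have hw0 : ∀ i, n ≤ i → w i = 0 := fun i hi => by simp [hw, not_lt.2 hi]
    have hw4 : (fun i => w i ^ 4) = fun i => if i < n then x i ^ 4 + ε else 0 := by
      funext i
      by_cases hi : i < n
      · simp only [hw, if_pos hi]; exact lt_w4 hε0
      · simp [hw, if_neg hi]
    rw [← hw4, ← nrm_pow_four hβ w ⟨n, hw0⟩]
    have hxn : ∀ i, n ≤ i → x i = 0 := fun i hi => hn0 i (by omega)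
    have h1 := lt_nrm_w hβ hβC hG (n := n) (x := x) (h := fun _ => 0) (w := w)
      (δ := ε ^ (1 / 4 : ℝ)) (by positivity) hxn (fun _ _ => rfl) hw0 (fun i hi => by
        simp only [hw, if_pos hi]
        rw [abs_of_nonneg (by positivity), abs_zero, add_zero]
        exact lt_w_le hε0)
    rw [nrm_zero, add_zero] at h1
    have e1 : ε ^ (1 / 4 : ℝ) = 1 / ((n : ℝ) + 1) ^ 2 := by
      have e2 : ε = (1 / ((n : ℝ) + 1) ^ 2) ^ (4 : ℕ) := by
        rw [hε]; field_simp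
      rw [e2, ← Real.rpow_natCast, ← Real.rpow_mul (by positivity)]
      norm_num
    rw [e1] at h1
    refine pow_le_pow_left₀ (nrm_nonneg β w) (h1.trans (le_of_eq ?_)) 4
    ring

end Pool.Agent.US
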